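import Mathlib

/-!
# MP_f0f309_al : parity-admissible linear orderings for skew-symmetrizable matrices

We exhibit a tournament on nine vertices (a skew-symmetric matrix with entries `0, 1, -1`)
without a linear ordering satisfying the parity condition on oriented chordless cycles.
-/

namespace Pool.Agent.Results.MP_f0f309_al.NoAdmissibleOrder

/-- An integer matrix `B` is skew-symmetrizable if `B * D` is skew-symmetric for a diagonal
matrix `D` with positive integer diagonal entries. -/
def SkewSymmetrizable {n : ℕ} (B : Matrix (Fin n) (Fin n) ℤ) : Prop :=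
  ∃ d : Fin n → ℤ, (∀ i, 0 < d i) ∧
    (B * Matrix.diagonal d).transpose = -(B * Matrix.diagonal d)

open Classical in
/-- The generalized intersection matrix determined by the strict linear ordering `r`. -/
noncomputable def gim {n : ℕ} (B : Matrix (Fin n) (Fin n) ℤ) (r : Fin n → Fin n → Prop) :
    Matrix (Fin n) (Fin n) ℤ :=
  fun i j => if i = j then 2 else if r i j then B i j else -B i j

/-- `c : ZMod m → Fin n` lists the vertices (cyclically) of a chordless cycle of length
`m = d - 1 ≥ 3` in `B`. -/
def ChordlessCycle {n : ℕ} (B : Matrix (Fin n) (Fin n) ℤ) (m : ℕ) (c : ZMod m → Fin n) : Prop :=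
  3 ≤ m ∧ Function.Injective c ∧
    ∀ j k : ZMod m, j ≠ k → (B (c j) (c k) ≠ 0 ↔ (j - k = 1 ∨ j - k = -1))

/-- All the entries of `B` along the cycle have the same sign. -/
def Oriented {n : ℕ} (B : Matrix (Fin n) (Fin n) ℤ) (m : ℕ) (c : ZMod m → Fin n) : Prop :=
  (∀ j : ZMod m, 0 < B (c j) (c (j + 1))) ∨ (∀ j : ZMod m, B (c j) (c (j + 1)) < 0)

/-- A linear ordering `r` is parity-admissible for `B` if every oriented chordless cycle of `B`
has an odd number of positive entries in the matrix determined by `r`. -/
def ParityAdmissible {n : ℕ} (B : Matrix (Fin n) (Fin n) ℤ) (r : Fin n → Fin n → Prop) : Prop :=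
  ∀ (m : ℕ) (c : ZMod m → Fin n), ChordlessCycle B m c → Oriented B m c →
    Odd (Set.ncard {j : ZMod m | 0 < gim B r (c j) (c (j + 1))})

/-- The rows of the adjacency matrix of a tournament on nine vertices, in binary. -/
def rows : List ℕ := [213, 91, 45, 404, 73, 294, 147, 368, 42]

/-- `T i j` : there is an arc from `i` to `j`. -/
def T (i j : Fin 9) : Bool := ((rows.getD i.val 0).testBit (8 - j.val))

/-- The matrix of the tournament. -/
def B0 : Matrix (Fin 9) (Fin 9) ℤ := fun i j => if T i j then 1 else if T j i then -1 else 0

theorem T_check : (∀ i j : Fin 9, i ≠ j → (T i j = !T j i)) ∧ ∀ i, T i i = false := by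
  decide +kernel

/-- No two earlier vertices `a` before `b` with `a → b → v → a`; the list `pre` holds the earlier
vertices, the latest first. -/
def okk : List (Fin 9) → Fin 9 → Bool
  | [], _ => true
  | b :: pre, v => (!(T b v) || pre.all (fun a => !(T a b && T v a))) && okk pre v

/-- Depth-first search for good orderings extending `pre`. -/
def ext : ℕ → List (Fin 9) → Bool
  | 0, _ => true
  | k + 1, pre =>
    (List.finRange 9).any (fun v => !(pre.contains v) && okk pre v && ext k (v :: pre))

theorem ext_false : ext 9 [] = false := by
  decide +kernel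

theorem okk_true (r : Fin 9 → Fin 9 → Prop)
    (H : ∀ i j k, T i j = true → T j k = true → T k i = true → ¬ (r i j ∧ r j k)) :
    ∀ (pre : List (Fin 9)) (v : Fin 9), pre.Pairwise (fun b a => r a b) →
      (∀ b ∈ pre, r b v) → okk pre v = true := by
  intro pre
  induction pre with
  | nil => intro v _ _; rfl
  | cons b pre ih =>
    intro v hp hb
    rw [List.pairwise_cons] at hp
    have h1 := ih v hp.2 (fun c hc => hb c (List.mem_cons_of_mem _ hc))
    unfold okk
    rw [h1, Bool.and_true, Bool.or_eq_true]
    by_cases hT : T b v = true
    · right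
      rw [List.all_eq_true]
      intro a ha
      by_contra hne
      have h2 : T a b = true ∧ T v a = true := by
        cases h3 : T a b <;> cases h4 : T v a <;> simp [h3, h4] at hne ⊢
      exact H a b v h2.1 hT h2.2 ⟨hp.1 a ha, hb b (List.mem_cons_self)⟩
    · left
      cases h3 : T b v
      · rfl
      · exact absurd h3 hT

theorem ext_true (r : Fin 9 → Fin 9 → Prop) [IsStrictTotalOrder (Fin 9) r]
    (H : ∀ i j k, T i j = true → T j k = true → T k i = true → ¬ (r i j ∧ r j k)) :
    ∀ (k : ℕ) (pre : List (Fin 9)), k + pre.length = 9 → pre.Nodup →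
      pre.Pairwise (fun b a => r a b) → (∀ a ∈ pre, ∀ v, v ∉ pre → r a v) →
      ext k pre = true := by
  intro k
  induction k with
  | zero => intro pre _ _ _ _; rfl
  | succ k ih =>
    intro pre hlen hnd hpw hcl
    have hne : ∃ v : Fin 9, v ∉ pre := by
      by_contra hcon
      push Not at hcon
      have h1 : (Finset.univ : Finset (Fin 9)) ⊆ pre.toFinset := by
        intro v _
        exact List.mem_toFinset.2 (hcon v)
      have h2 := Finset.card_le_card h1
      have h3 := List.toFinset_card_le pre
      simp only [Finset.card_univ, Fintype.card_fin] at h2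
      omega
    have hwf : WellFounded r := Finite.wellFounded_of_trans_of_irrefl r
    obtain ⟨v, hv, hmin⟩ := hwf.has_min {v : Fin 9 | v ∉ pre} hne
    have hv' : v ∉ pre := hv
    unfold ext
    rw [List.any_eq_true]
    refine ⟨v, List.mem_finRange v, ?_⟩
    have h1 : okk pre v = true := okk_true r H pre v hpw (fun b hb => hcl b hb v hv')
    have h2 : ext k (v :: pre) = true := by
      apply ih
      · simp only [List.length_cons]; omega
      · exact List.nodup_cons.2 ⟨hv', hnd⟩
      · exact List.pairwise_cons.2 ⟨fun a ha => hcl a ha v hv', hpw⟩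
      · intro a ha w hw
        rw [List.mem_cons] at ha hw
        push Not at hw
        rcases ha with rfl | ha
        · rcases trichotomous_of r a w with h | h | h
          · exact h
          · exact absurd h.symm hw.1
          · exact absurd h (hmin w hw.2)
        · exact hcl a ha w hw.2
    rw [h1, h2]
    simp [hv']

/-- Some skew-symmetrizable matrix has no parity-admissible linear ordering. -/
theorem result : ∃ (n : ℕ) (B : Matrix (Fin n) (Fin n) ℤ), 1 ≤ n ∧ SkewSymmetrizable B ∧
    ∀ r : Fin n → Fin n → Prop, IsStrictTotalOrder (Fin n) r → ¬ ParityAdmissible B r := by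
  refine ⟨9, B0, by norm_num, ⟨fun _ => 1, fun _ => one_pos, ?_⟩, ?_⟩
  · ext i j
    have h1 : Matrix.diagonal (fun _ : Fin 9 => (1 : ℤ)) = 1 := Matrix.diagonal_one
    rw [h1, Matrix.mul_one, Matrix.transpose_apply, Matrix.neg_apply]
    unfold B0
    by_cases hij : i = j
    · subst hij
      simp [T_check.2]
    · have h2 := T_check.1 i j hij
      cases h3 : T j i <;> simp [h3] at h2 <;> simp [h2]
  · intro r hr hpar
    have hF : ext 9 [] = true := by
      refine ext_true r ?_ 9 [] (by simp) List.nodup_nil List.Pairwise.nil (by simp)
      intro i j k hij hjk hki hrr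
      have nij : i ≠ j := by
        rintro rfl; rw [T_check.2 i] at hij; exact Bool.noConfusion hij
      have njk : j ≠ k := by
        rintro rfl; rw [T_check.2 j] at hjk; exact Bool.noConfusion hjk
      have nki : k ≠ i := by
        rintro rfl; rw [T_check.2 k] at hki; exact Bool.noConfusion hki
      have hji : T j i = false := by
        have := T_check.1 i j nij; rw [hij] at this; simpa using this.symm
      have hkj : T k j = false := by
        have := T_check.1 j k njk; rw [hjk] at this; simpa using this.symm
      have hik : T i k = false := by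
        have := T_check.1 k i nki; rw [hki] at this; simpa using this.symm
      have hrik : r i k := _root_.trans hrr.1 hrr.2
      have hrki : ¬ r k i := fun h => asymm h hrik
      let c : ZMod 3 → Fin 9 := (![i, j, k] : Fin 3 → Fin 9)
      have c0 : c 0 = i := rfl
      have c1 : c 1 = j := rfl
      have c2 : c 2 = k := rfl
      have hz : ∀ z : ZMod 3, z = 0 ∨ z = 1 ∨ z = 2 := by decide
      have z1 : (0 : ZMod 3) + 1 = 1 := by decide
      have z2 : (1 : ZMod 3) + 1 = 2 := by decide
      have z3 : (2 : ZMod 3) + 1 = 0 := by decide
      have B01 : B0 i j = 1 := by simp [B0, hij]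
      have B12 : B0 j k = 1 := by simp [B0, hjk]
      have B20 : B0 k i = 1 := by simp [B0, hki]
      have B10 : B0 j i = -1 := by simp [B0, hij, hji]
      have B21 : B0 k j = -1 := by simp [B0, hjk, hkj]
      have B02 : B0 i k = -1 := by simp [B0, hki, hik]
      have hch : ChordlessCycle B0 3 c := by
        refine ⟨le_refl 3, ?_, ?_⟩
        · intro x y hxy
          rcases hz x with rfl | rfl | rfl <;> rcases hz y with rfl | rfl | rfl <;>
            simp only [c0, c1, c2] at hxy <;>
            first | rfl | exact absurd hxy nij | exact absurd hxy nij.symm |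
              exact absurd hxy njk | exact absurd hxy njk.symm | exact absurd hxy nki |
              exact absurd hxy nki.symm
        · intro x y hxy
          constructor
          · intro _
            exact (by decide : ∀ x y : ZMod 3, x ≠ y → x - y = 1 ∨ x - y = -1) x y hxy
          · intro _
            rcases hz x with rfl | rfl | rfl <;> rcases hz y with rfl | rfl | rfl <;>
              simp only [c0, c1, c2] <;>
              first | exact absurd rfl hxy | (rw [B01]; norm_num) | (rw [B12]; norm_num) |
                (rw [B20]; norm_num) | (rw [B10]; norm_num) | (rw [B21]; norm_num) |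
                (rw [B02]; norm_num)
      have hor : Oriented B0 3 c := by
        left
        intro x
        rcases hz x with rfl | rfl | rfl
        · rw [z1, c0, c1, B01]; exact one_pos
        · rw [z2, c1, c2, B12]; exact one_pos
        · rw [z3, c2, c0, B20]; exact one_pos
      have hodd := hpar 3 c hch hor
      have hset : {x : ZMod 3 | 0 < gim B0 r (c x) (c (x + 1))} = {0, 1} := by
        ext x
        simp only [Set.mem_ofPred_eq, Set.mem_insert_iff, Set.mem_singleton_iff]
        rcases hz x with rfl | rfl | rfl
        · rw [z1, c0, c1]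
          simp [gim, nij, hrr.1, B01]
        · rw [z2, c1, c2]
          simp [gim, njk, hrr.2, B12]
        · rw [z3, c2, c0]
          have : ¬ ((2 : ZMod 3) = 0 ∨ (2 : ZMod 3) = 1) := by decide
          simp only [gim, nki, hrki, B20, this]
          norm_num
      rw [hset] at hodd
      have hcard : Set.ncard ({0, 1} : Set (ZMod 3)) = 2 :=
        Set.ncard_pair (by decide)
      rw [hcard] at hodd
      exact (by decide : ¬ Odd 2) hodd
    rw [ext_false] at hF
    exact Bool.noConfusion hF

end Pool.Agent.Results.MP_f0f309_al.NoAdmissibleOrder
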